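import Pool.Agent.R703.FS.Gen

/-!
MP_7f1e7e_al (the Alperin–McKay–Navarro conjecture).

For a finite group `J` and `n ≥ 1` let `ν_n(χ) = 1/|J| ∑ g, χ(g ^ n)` be the `n`-th Frobenius–Schur
indicator (`indicator n χ`, an integer) of an irreducible complex character `χ`.

Blocks: `F` is a field of characteristic `p`, `red` a ring homomorphism from the ring of algebraic
integers to `F`, and a block `B` of `G` is given by an `F`-algebra homomorphism from the centre of
`F[G]` (the class functions with the convolution product) to `F`. `centralValue red χ` is the
reduction of the central character of `χ`. `htSum p n D C` is the sum of `χ(1)_{p'} ν_n(χ)` over the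
irreducible characters `χ` of `J` with `χ(1)_p = |J : D|_p` and the property `C`. `FixedBy s χ` says
`χ^s = χ`, and `PPowerOrder p N s` says that the automorphism of the field of the `N`-th roots of
unity induced by the automorphism `s` of `ℂ` has `p`-power order.
-/

set_option autoImplicit false

namespace Pool.Agent.Results.MP_7f1e7e_al.FixedHeightZero

open Pool.Agent.Y63.NV (IsBlock IsDefectGroup)
open Pool.Agent.R703.FS

/-- Let `B` be a `p`-block of the finite group `G` with defect group `D`, let `N = N_G(D)`, let `s`
be an automorphism of `ℂ` which induces an automorphism of `p`-power order of the field of the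
`|G|`-th roots of unity, and `n ≥ 1`. The sum of `χ(1)_{p'} ν_n(χ)` over the `s`-fixed height zero
characters `χ` in `B` is congruent modulo `p` to `|G : N|_{p'}` times the sum of `ψ(1)_{p'} ν_n(ψ)`
over the `s`-fixed height zero characters `ψ` of `N` in the blocks `b` of `N` with `b^G = B`. -/
theorem result (p : ℕ) [Fact p.Prime] (F : Type) [Field F] [CharP F p]
    (red : integralClosure ℤ ℂ →+* F) (G : Type) [Group G] [Finite G] (B : (G → F) → F)
    (hB : IsBlock B) (D : Subgroup G) (hD : IsDefectGroup p B D) (s : ℂ ≃+* ℂ)
    (hs : PPowerOrder p (Nat.card G) s) (n : ℕ) (hn : 0 < n) :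
    ∃ m : ℤ, htSum p n D (fun χ : G → ℂ => FixedBy s χ ∧ InBlock red B χ) -
      (primePart p (Subgroup.normalizer (D : Set G)).index : ℂ) *
        htSum p n (D.subgroupOf (Subgroup.normalizer (D : Set G)))
          (fun ψ : Subgroup.normalizer (D : Set G) → ℂ => FixedBy s ψ ∧ InInduced red B ψ) =
      p * m :=
  main_heightG (p := p) red hB hD hn s hs

end Pool.Agent.Results.MP_7f1e7e_al.FixedHeightZero
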