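import Pool.Agent.R663.GB.AMN

/-!
MP_7f1e7e_al (the Alperin–McKay–Navarro conjecture): groups whose Sylow `p`-subgroups have pairwise
trivial intersections.

`E` is a finite group, `G` a normal subgroup, `P` a Sylow `p`-subgroup of `G`, `N = N_E(P)`, so that
`G ∩ N = N_G(P)`; `B` is a `p`-block of `G`, given by its central character `Z(F[G]) → F`, as a
functional on the class functions of `G`; `F` is an algebraically closed field of characteristic `p`
and `red` reduces the algebraic integers to `F`.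

* `Induces red G J B ψ` (Pool/Agent/R663/GA/EqV.lean) is `bl(ψ)^G = B` for `ψ ∈ Irr(G ∩ J)`: the
  central character `centralValue red ψ` of `ψ` (Pool/Agent/Y63/NV/Defs.lean), restricted to
  `Z(F[G])`, is `B`. For `J = E` (the subgroup `⊤`) it says that `ψ` is in `B`. If `B` has defect
  group `P`, for `J = N` it says that `ψ` is in the Brauer correspondent `b` of `B`.
* `IrrIn red G J B` is the set of the `ψ ∈ Irr(G ∩ J)` with `bl(ψ)^G = B`: it is `Irr(B)` for
  `J = ⊤`, and `Irr(b)` for `J = N`.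
* `numInv red G J B e τ` (Pool/Agent/R663/GA/EqV.lean) is the number of these `ψ` which are
  stable under `(eG, τ)`: an element `a` of `J` in the coset `Ge` satisfies
  `ψ(a x a⁻¹) = τ(ψ(x))`. For `e = 1` this is `ψ = ψ^τ`.
* `numB G J B e q` (Pool/Agent/R663/GB/EqB.lean) is the number of the irreducible Brauer characters
  of `G ∩ J` in `B`, respectively `b`, (the traces `φ` of the simple `F[G ∩ J]`-modules) which are
  stable under `eG` and the map `t ↦ t^q` of `F`: `φ(a x a⁻¹) = φ(x)^q`, `a` as before.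
-/

set_option autoImplicit false

namespace Pool.Agent.Results.MP_7f1e7e_al.TISylowGalois

open Pool.Agent.Y63.AWC (IsIrreducibleCharacter)
open Pool.Agent.Y63.KR Pool.Agent.R663.GA Pool.Agent.R663.GB

/-- The normaliser in `E` of a Sylow `p`-subgroup of the subgroup `G`. -/
def NE {E : Type} [Group E] {G : Subgroup E} {p : ℕ} (P : Sylow p G) : Subgroup E :=
  Subgroup.normalizer (((P : Subgroup G).map G.subtype : Subgroup E) : Set E)

/-- The set of the `ψ ∈ Irr(G ∩ J)` with `bl(ψ)^G = B`. -/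
abbrev IrrIn {F : Type} [Field F] (red : integralClosure ℤ ℂ →+* F) {E : Type} [Group E]
    (G J : Subgroup E) (B : (G → F) → F) : Type :=
  {ψ : ↥(G ⊓ J) → ℂ // IsIrreducibleCharacter ψ ∧ Induces red G J B ψ}

/-- Let `G` be a normal subgroup of the finite group `E`, whose Sylow `p`-subgroups are nontrivial
and have pairwise trivial intersections, `P` a Sylow `p`-subgroup of `G`, `N = N_E(P)`, and `B` a
`p`-block of `G`. Let `m` be the `p'`-part of `|G|`.
1. If the automorphisms `τ` and `τ'` of the complex numbers agree on the `m`-th roots of unity, then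
the difference of the numbers of the elements of `Irr(B)` and `Irr(b)` stable under `(eG, τ)` is the
same as for `(eG, τ')`.
2. If `τ` acts as `z ↦ z^(p^i)` on the `m`-th roots of unity, this difference is the difference of
the numbers of the irreducible Brauer characters in `B` and `b` stable under `eG` and
`t ↦ t^(p^i)`.
3. Let `τ` be as in 2. and let `B` be stable under `τ`. If for all `k` the same number of
irreducible Brauer characters in `B` and in `b` is fixed by `t ↦ t^(p^(i k))`, then there is a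
bijection `Irr(B) → Irr(b)` which commutes with `τ`.
4. If `p` is odd and `|Irr(B)| = |Irr(b)|`, then there is a bijection `Irr(B) → Irr(b)` which
commutes with all automorphisms fixing the `m`-th roots of unity. -/
theorem result (p : ℕ) [Fact p.Prime] (F : Type) [Field F] [IsAlgClosed F] [CharP F p]
    (red : integralClosure ℤ ℂ →+* F) (E : Type) [Group E] [Finite E] (G : Subgroup E) [G.Normal]
    (hTI : ∀ S T : Sylow p G, S ≠ T → (S : Subgroup G) ⊓ (T : Subgroup G) = ⊥)
    (hp : p ∣ Nat.card G) (P : Sylow p G) (B : (G → F) → F)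
    (m : ℕ) (hm : m = Nat.card G / p ^ (Nat.card G).factorization p) :
    (∀ (e : E) (τ τ' : ℂ ≃+* ℂ), (∀ z : ℂ, z ^ m = 1 → τ z = τ' z) →
      (numInv red G ⊤ B e τ : ℤ) - (numInv red G (NE P) B e τ : ℤ) =
        (numInv red G ⊤ B e τ' : ℤ) - (numInv red G (NE P) B e τ' : ℤ)) ∧
    (∀ (e : E) (τ : ℂ ≃+* ℂ) (i : ℕ), (∀ z : ℂ, z ^ m = 1 → τ z = z ^ p ^ i) →
      (numInv red G ⊤ B e τ : ℤ) - (numInv red G (NE P) B e τ : ℤ) =
        (numB G ⊤ B e (p ^ i) : ℤ) - (numB G (NE P) B e (p ^ i) : ℤ)) ∧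
    (∀ (τ : ℂ ≃+* ℂ) (i : ℕ), (∀ z : ℂ, z ^ m = 1 → τ z = z ^ p ^ i) →
      (∀ χ : IrrIn red G ⊤ B, Induces red G ⊤ B (fun x => τ (χ.1 x))) →
      (∀ k : ℕ, numB G ⊤ B 1 (p ^ (i * k)) = numB G (NE P) B 1 (p ^ (i * k))) →
      ∃ f : IrrIn red G ⊤ B ≃ IrrIn red G (NE P) B, ∀ χ χ' : IrrIn red G ⊤ B,
        (∀ x, χ'.1 x = τ (χ.1 x)) → ∀ y, (f χ').1 y = τ ((f χ).1 y)) ∧
    (p ≠ 2 → Nat.card (IrrIn red G ⊤ B) = Nat.card (IrrIn red G (NE P) B) →
      ∃ f : IrrIn red G ⊤ B ≃ IrrIn red G (NE P) B,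
        ∀ τ : ℂ ≃+* ℂ, (∀ z : ℂ, z ^ m = 1 → τ z = z) → ∀ χ χ' : IrrIn red G ⊤ B,
          (∀ x, χ'.1 x = τ (χ.1 x)) → ∀ y, (f χ').1 y = τ ((f χ).1 y)) := by
  subst hm
  have k1 := fun (e : E) (τ : ℂ ≃+* ℂ) => relSum_TI hTI inferInstance hp
    (fun J => (numInv red G J B e τ : ℤ)) (fun g hg J => by rw [numInv_conj red B e τ hg]) P
  have k2 := fun (e : E) (q : ℕ) => relSum_TI hTI inferInstance hp
    (fun J => (numB G J B e q : ℤ)) (fun g hg J => by rw [numB_conj B e q hg]) P
  have h1 : ∀ (e : E) (τ τ' : ℂ ≃+* ℂ),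
      (∀ z : ℂ, z ^ (Nat.card G / p ^ (Nat.card G).factorization p) = 1 → τ z = τ' z) →
      (numInv red G ⊤ B e τ : ℤ) - (numInv red G (NE P) B e τ : ℤ) =
        (numInv red G ⊤ B e τ' : ℤ) - (numInv red G (NE P) B e τ' : ℤ) := by
    intro e τ τ' h
    have h2 := rel_congr red B e τ τ' h
    rw [k1, k1] at h2
    exact h2
  have h2 : ∀ (e : E) (τ : ℂ ≃+* ℂ) (i : ℕ),
      (∀ z : ℂ, z ^ (Nat.card G / p ^ (Nat.card G).factorization p) = 1 → τ z = z ^ p ^ i) →
      (numInv red G ⊤ B e τ : ℤ) - (numInv red G (NE P) B e τ : ℤ) =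
        (numB G ⊤ B e (p ^ i) : ℤ) - (numB G (NE P) B e (p ^ i) : ℤ) := by
    intro e τ i h
    have h2 := rel_kl red B e τ i h
    rw [k1, k2] at h2
    exact h2
  refine ⟨h1, h2, ?_, ?_⟩
  · intro τ i h hs hc
    have hpow : ∀ (k : ℕ) (z : ℂ), z ^ (Nat.card G / p ^ (Nat.card G).factorization p) = 1 →
        (τ ^ k : ℂ ≃+* ℂ) z = z ^ p ^ (i * k) := by
      intro k
      induction k with
      | zero =>
        intro z _
        rw [mul_zero, pow_zero p, pow_one]
        rfl
      | succ k ih =>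
        intro z hz
        have e1 : (τ ^ (k + 1) : ℂ ≃+* ℂ) z = (τ ^ k : ℂ ≃+* ℂ) (τ z) := by
          rw [pow_succ]
          rfl
        rw [e1, h z hz, map_pow, ih z hz, ← pow_mul, ← pow_add, mul_add, mul_one]
    have H : ∀ k : ℕ, numInv red G ⊤ B 1 (τ ^ k) = numInv red G (NE P) B 1 (τ ^ k) := by
      intro k
      have h3 := h2 1 (τ ^ k) (i * k) (hpow k)
      rw [hc k, sub_self] at h3
      exact_mod_cast sub_eq_zero.1 h3
    by_cases hne : Nonempty (IrrIn red G ⊤ B)
    · obtain ⟨χ₀⟩ := hne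
      obtain ⟨v, hv⟩ := exists_exp τ G
      have hB := stab_of red hv χ₀.2.1 χ₀.2.2 (hs χ₀)
      exact exists_bij1 red ⊤ (NE P) B τ hs (fun χ => ind_stab red hv hB χ.2.1 χ.2.2) H
    · rw [not_nonempty_iff] at hne
      have h3 := H 0
      rw [pow_zero, numInv_one, numInv_one] at h3
      have h4 : Nat.card (IrrIn red G ⊤ B) = 0 := Nat.card_of_isEmpty
      have h5 : Nat.card (IrrIn red G (NE P) B) = 0 := h3.symm.trans h4
      have hfin : Finite (IrrIn red G (NE P) B) := fin_XB red G (NE P) B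
      have hem : IsEmpty (IrrIn red G (NE P) B) := Finite.card_eq_zero_iff.1 h5
      exact ⟨Equiv.equivOfIsEmpty _ _, fun χ => hne.elim χ⟩
  · intro hp2 hc
    refine exists_bij hp2 red ⊤ (NE P) B fun τ hτ => ?_
    have h3 := h1 1 τ 1 (fun z hz => hτ z hz)
    rw [numInv_one, numInv_one] at h3
    have h4 : (Nat.card (XB red G ⊤ B) : ℤ) = Nat.card (XB red G (NE P) B) := by
      exact_mod_cast hc
    rw [h4, sub_self] at h3
    exact_mod_cast sub_eq_zero.1 h3

end Pool.Agent.Results.MP_7f1e7e_al.TISylowGalois
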