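import Pool.Agent.R893.TP2.FinAMN
import Pool.Agent.R893.TP2.All2

/-!
# The Alperin–McKay–Navarro conjecture and its asymptotic form
-/

namespace Pool.Agent.Results.MP_7f1e7e_al.TensorPowerGap

open Pool.Agent.H254R3.IN Pool.Agent.R893.TP2

/-- Let `p` be a prime, `X` a family of blocks closed under the tensor square
`(G, D, B) ↦ (G × G, D × D, B ⊗ B)` (for instance all blocks) and `A` a group of automorphisms of
`ℂ` (for instance the group `𝓗`). Consider the blocks `B` in `X` with nontrivial defect group `D`
and Brauer correspondent `b`, and the subgroups `K` of the stabilizer `A_B` of `B` in `A`. Then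
`|Irr₀(B)^K| = |Irr₀(b)^K|` for all of them if and only if for every `K ≤ A` and `ε > 0` there are
`C`, `N` such that these numbers differ by a factor at most `C |G|^ε` for all these `B` with
`K ≤ A_B` and `|D| ≥ N`. In this case there is an `A_B`-equivariant bijection
`Irr₀(B) → Irr₀(b)` for all these `B` such that `A_B` fixes `b`. -/
theorem result (p : ℕ) (hp : p.Prime) (O : ValuationSubring ℂ) (hO : (p : ℂ) ∈ O.nonunits)
    (X : ∀ (G : Type) [Group G], Subgroup G → Set (G → ℂ) → Prop) (hX : SqClosed X)
    (A : Subgroup (RingAut ℂ)) :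
    (AMNApprox p O X A ↔
      ∀ (G : Type) [Group G] [Finite G] (D : Subgroup G) (B : Set (G → ℂ))
        (b : Set (Subgroup.normalizer (D : Set G) → ℂ)), IsPair p O X G D B b →
        ∀ K : Subgroup (RingAut ℂ), K ≤ A → (∀ σ ∈ K, StabB B σ) →
          k0F p (K : Set (RingAut ℂ)) D B = k0NF p (K : Set (RingAut ℂ)) D b) ∧
    (AMNApprox p O X A →
      ∀ (G : Type) [Group G] [Finite G] (D : Subgroup G) (B : Set (G → ℂ))
        (b : Set (Subgroup.normalizer (D : Set G) → ℂ)), IsPair p O X G D B b →
        (∀ σ ∈ A, StabB B σ → StabB b σ) →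
        ∃ f : Irr0 p D B ≃ Irr0 p (D.subgroupOf (Subgroup.normalizer (D : Set G))) b,
          Equivar {σ | σ ∈ A ∧ StabB B σ} f) :=
  amn_final mark hBLK hDEF norm hBC hK0F iso3f p hp O hO X hX A

end Pool.Agent.Results.MP_7f1e7e_al.TensorPowerGap
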